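import Pool.Agent.H28.LF.F1

/-!
Project LF, row SDM: measurability of the set of the components which decouple.
-/

set_option autoImplicit false

open MeasureTheory ProbabilityTheory Filter Topology Finset
open scoped Nat ENNReal

namespace Pool.Agent.H40.LF

open Pool.Agent.H28.LF
open Pool.Agent.H24.T2 (Pset)

theorem meas_btY : Measurable btY :=
  measurable_fst.comp (measurable_pi_apply (0 : ℤ))

theorem meas_flag (p : ℕ) : Measurable fun ω : Yi => (ω 0).2.1 p :=
  (measurable_pi_apply p).comp (measurable_fst.comp (measurable_snd.comp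
    (measurable_pi_apply (0 : ℤ))))

theorem meas_flY (p : ℕ) : MeasurableSet (flY p) :=
  (meas_flag p) (measurableSet_singleton true)

theorem meas_xiY (p : ℕ) : Measurable (xiY p) :=
  (measurable_pi_apply p).comp (measurable_snd.comp (measurable_snd.comp
    (measurable_pi_apply (0 : ℤ))))

theorem meas_shY (n : ℕ) : Measurable (shY^[n]) := shY.measurable.iterate n

theorem meas_shX (n : ℕ) : Measurable (shX^[n]) := shX.measurable.iterate n

theorem meas_ExY (p j : ℕ) : MeasurableSet (ExY p j) := by
  have h1 : Measurable fun ω : Yi => btY (shY^[p * j] ω) := meas_btY.comp (meas_shY _)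
  have h2 : Measurable fun ω : Yi => ng (xiY p ω j).1 :=
    (measurable_of_countable ng).comp (measurable_fst.comp
      ((measurable_pi_apply (j : ℤ)).comp (meas_xiY p)))
  exact (measurableSet_eq_fun h1 h2).compl

theorem meas_kreal (κ : Kernel Yi Yi) {A : Set Yi} (hA : MeasurableSet A) :
    Measurable fun ω => (κ ω).real A :=
  (κ.measurable_coe hA).ennreal_toReal

theorem meas_Wa (R p : ℕ) : Measurable (Wa shY btY R p) := by
  refine measurable_pi_lambda _ fun i => ?_
  exact meas_btY.comp (meas_shY _)

theorem pf_SDM : T_SDM := by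
  intro κ _ R m θ
  have hG : ∀ (p : ℕ) (G : Set (Fin R → Bool × Bool)),
      MeasurableSet {ω : Yi | Wa shY btY R p ω ∈ G} := fun p G =>
    meas_Wa R p (Set.to_countable G).measurableSet
  have he : {ω | DcO shY btY flY R θ (κ ω) m} =
      ⋃ X ∈ {X : Finset ℕ | (X.card : ℝ) ≤ θ * (Pset 2 m).card}, ⋂ p ∈ {p | p ∈ Pset 2 m ∧ p ∉ X},
        ⋂ G : Set (Fin R → Bool × Bool), {ω | (κ ω).real {ω | Wa shY btY R p ω ∈ G} ≤
          10 * (p * (κ ω).real (flY p ∩ {ω | Wa shY btY R p ω ∈ G})) + θ} := by
    ext ω
    simp only [DcO, Set.mem_ofPred_eq, Set.mem_iUnion, Set.mem_iInter, exists_prop, and_imp]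
  rw [he]
  refine MeasurableSet.biUnion (Set.to_countable _) fun X _ => ?_
  refine MeasurableSet.biInter (Set.to_countable _) fun p _ => ?_
  refine MeasurableSet.iInter fun G => ?_
  refine measurableSet_le (meas_kreal κ (hG p G)) ?_
  exact (((meas_kreal κ ((meas_flY p).inter (hG p G))).const_mul _).const_mul _).add_const _

end Pool.Agent.H40.LF
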