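import Pool.Agent.H40.LF.SDM
import Pool.Agent.H78.AG.ER1

/-!
Project LF, row CMP: ergodic components of the measure on the `y`-side.
-/

set_option autoImplicit false

open MeasureTheory ProbabilityTheory Filter Topology Finset
open scoped Nat ENNReal

namespace Pool.Agent.H40.LF

open Pool.Agent.H28.LF
open Pool.Agent.H67.AG (Inv)
open Pool.Agent.H78.AG (er1G er1G_countable er1G_mp er1_ergodic)

theorem ae_comp {Ω : Type} [MeasurableSpace Ω] (P : Measure Ω) (κ : Kernel Ω Ω)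
    (hB : ∀ B, MeasurableSet B → P B = ∫⁻ ω, κ ω B ∂P) {q : Ω → Prop} (h : ∀ᵐ ω ∂P, q ω) :
    ∀ᵐ ω ∂P, ∀ᵐ ω' ∂(κ ω), q ω' := by
  have h0 : P (toMeasurable P {ω | ¬ q ω}) = 0 := by
    rw [measure_toMeasurable]
    exact h
  rw [hB _ (measurableSet_toMeasurable _ _),
    lintegral_eq_zero_iff (κ.measurable_coe (measurableSet_toMeasurable _ _))] at h0
  filter_upwards [h0] with ω hω
  exact measure_mono_null (subset_toMeasurable _ _) hω

theorem pf_CMP (hM : Pool.Agent.H80.AG.T_MRC) : T_CMP := by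
  intro u ε PX P hX hS
  have := hS.prob
  obtain ⟨κ, hκ, hB, hae⟩ := Pool.Agent.H84.B.erg Yi P (er1G shY) hS.prob
    (er1G_countable _) ⟨0, by simp; rfl⟩
    (by
      rintro g ⟨a, ha⟩ h ⟨b, hb⟩
      refine ⟨b + a, ?_⟩
      rw [zpow_add, ← ha, ← hb]
      rfl)
    (by
      rintro g ⟨a, ha⟩
      refine ⟨-a, ?_⟩
      rw [zpow_neg, ← ha]
      rfl)
    (fun g hg => er1G_mp shY P hS.inv g hg)
  have := hκ
  refine ⟨κ, hκ, hB, ?_⟩
  have hmp : ∀ᵐ ω ∂P, MeasurePreserving shY (κ ω) (κ ω) := by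
    filter_upwards [hae] with ω hω
    exact hω.1 shY ⟨1, by simp⟩
  have hDm : Measurable fun ω : Yi => sg (btY ω).1 :=
    (measurable_of_countable sg).comp (measurable_fst.comp meas_btY)
  have hD1 : ∀ ω : Yi, sg (btY ω).1 = 1 ∨ sg (btY ω).1 = -1 := by
    intro ω
    unfold sg
    cases (btY ω).1 <;> simp
  have hall : ∀ᵐ ω ∂P, ∀ W : ℕ, 0 < W →
      (κ ω)[fun ω => sg (btY ω).1 | Inv shY W] =ᵐ[κ ω] 0 := by
    rw [ae_all_iff]
    intro W
    by_cases hW : 0 < W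
    · filter_upwards [hM Yi P shY κ (fun ω => sg (btY ω).1) W hDm hD1 hW hB hmp (hS.mr W hW)]
        with ω hω _
      exact hω
    · exact Filter.Eventually.of_forall fun ω h => absurd h hW
  have hprime : ∀ q : ℕ → Yi → Prop, (∀ p : ℕ, p.Prime → ∀ᵐ ω ∂P, q p ω) →
      ∀ᵐ ω ∂P, ∀ p : ℕ, p.Prime → ∀ᵐ ω' ∂(κ ω), q p ω' := by
    intro q hq
    rw [ae_all_iff]
    intro p
    by_cases hp : p.Prime
    · filter_upwards [ae_comp P κ hB (hq p hp)] with ω hω _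
      exact hω
    · exact Filter.Eventually.of_forall fun ω h => absurd h hp
  have hpos : ∀ q : ℕ → Yi → Prop, (∀ d : ℕ, 0 < d → ∀ᵐ ω ∂P, q d ω) →
      ∀ᵐ ω ∂P, ∀ d : ℕ, 0 < d → ∀ᵐ ω' ∂(κ ω), q d ω' := by
    intro q hq
    rw [ae_all_iff]
    intro d
    by_cases hd : 0 < d
    · filter_upwards [ae_comp P κ hB (hq d hd)] with ω hω _
      exact hω
    · exact Filter.Eventually.of_forall fun ω h => absurd h hd
  have hlab := hprime (fun p ω => (xiY p ω 0).2 = (xiY p ω 1).2) fun p hp =>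
    (hS.law p hp).quasiMeasurePreserving.ae hX.lab
  have hstp := hprime
    (fun p ω => xiY p (shY ω) = xiY p ω ∨ xiY p (shY ω) = shX (xiY p ω)) hS.stp
  have hstf := hprime
    (fun p ω => ω ∈ flY p → xiY p (shY^[p] ω) = shX (xiY p ω)) hS.stf
  have hper := hpos (fun d ω => (ω ∈ flY d ↔ shY^[d] ω ∈ flY d) ∧
    ∃! i : ℕ, i < d ∧ shY^[i] ω ∈ flY d) hS.per
  have hsqf := ae_comp P κ hB hS.sqf
  filter_upwards [hae, hall, hlab, hstp, hstf, hper, hsqf] with ω h1 h2 h3 h4 h5 h6 h7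
  exact ⟨inferInstance, er1_ergodic shY (κ ω) h1.1 h1.2, h2, h3, h4, h5, h6, h7⟩

end Pool.Agent.H40.LF
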