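import Pool.Agent.H28.LF.F1

/-!
Project LF, row COD: good words have no isolated mismatch.
-/

set_option autoImplicit false

open MeasureTheory ProbabilityTheory Filter Topology Finset
open scoped Nat ENNReal

namespace Pool.Agent.H40.LF

open Pool.Agent.H28.LF

theorem norm_em (t : ℝ) : ‖em t‖ = 1 := by
  unfold Pool.Agent.H28.LF.em
  rw [Complex.norm_exp]
  simp

theorem pr_congr (u : Bool × Bool → ℂ) (w w' : ℕ → Bool × Bool) (l j : ℕ)
    (h : ∀ i, i < j → u (w (l + i)) = u (w' (l + i))) : Pr u w l j = Pr u w' l j := by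
  unfold Pr
  exact prod_congr rfl fun i hi => h i (mem_range.1 hi)

theorem mm_congr (u : Bool × Bool → ℂ) (K : ℕ) (θ : ℝ) (w w' : ℕ → Bool × Bool) (l : ℕ)
    (h : ∀ i, i < K → u (w (l + i)) = u (w' (l + i))) : mm u K θ w l = mm u K θ w' l := by
  unfold mm
  congr 1
  refine sum_congr rfl fun k hk => ?_
  rw [pr_congr u w w' l (k + 1) fun i hi => h i (by have := mem_range.1 hk; omega)]

theorem norm_pr (u : Bool × Bool → ℂ) (hu : ∀ b, ‖u b‖ = 1) (w : ℕ → Bool × Bool) (l j : ℕ) :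
    ‖Pr u w l j‖ = 1 := by
  unfold Pr
  rw [norm_prod]
  exact prod_eq_one fun i _ => hu _

theorem pf_COD : T_COD := by
  intro u ix c z ζ K L θ hu hix hc hζ hz h5 hsep v v' hv hv' i hKi hiL hne
  by_contra hcon
  push Not at hcon
  unfold BadW at hv hv'
  simp only [Set.mem_ofPred_eq, not_not] at hv hv'
  obtain ⟨w, hw, hg1, hg2⟩ := hv
  obtain ⟨w', hw', hg1', hg2'⟩ := hv'
  have heq : ∀ j : ℕ, j < L + K → j ≠ (i : ℕ) → u (w j) = u (w' j) := by
    intro j hj hji
    have h1 := hcon ⟨j, hj⟩ (fun h => hji (by rw [← h]))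
    rw [hw, hw'] at h1
    exact (hix _ _).1 h1
  have hne' : u (w i) ≠ u (w' i) := by
    intro h
    apply hne
    rw [hw, hw']
    exact (hix _ _).2 h
  have h0 : mm u K θ w 0 = mm u K θ w' 0 :=
    mm_congr u K θ w w' 0 fun j hj => heq _ (by omega) (by omega)
  have hL : mm u K θ w L = mm u K θ w' L :=
    mm_congr u K θ w w' L fun j hj => heq _ (by omega) (by omega)
  -- the products
  have hsplit : ∀ w₁ : ℕ → Bool × Bool, Pr u w₁ 0 L =
      u (w₁ i) * ∏ k ∈ (range L).erase i, u (w₁ k) := by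
    intro w₁
    unfold Pr
    simp only [zero_add]
    rw [mul_prod_erase (range L) (fun k => u (w₁ k)) (mem_range.2 hiL)]
  have hrest : ∏ k ∈ (range L).erase (i : ℕ), u (w k) = ∏ k ∈ (range L).erase (i : ℕ), u (w' k) := by
    refine prod_congr rfl fun k hk => ?_
    rw [mem_erase, mem_range] at hk
    exact heq k (by omega) hk.1
  have hnr : ‖∏ k ∈ (range L).erase (i : ℕ), u (w' k)‖ = 1 := by
    rw [norm_prod]
    exact prod_eq_one fun k _ => hu.1 _
  set Q := ∏ k ∈ (range L).erase (i : ℕ), u (w' k) with hQ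
  set M := mm u K θ w' L with hM
  set N := mm u K θ w' 0 with hN
  rw [hsplit w, hrest, hL, h0] at hg2
  rw [hsplit w'] at hg2'
  rw [h0] at hg1
  have hdiff : ‖u (w i) - u (w' i)‖ * ‖M‖ ≤ 2 * z := by
    have e1 : em (L * θ) * (u (w i) - u (w' i)) * Q * M =
        (em (L * θ) * (u (w i) * Q) * M - N) - (em (L * θ) * (u (w' i) * Q) * M - N) := by ring
    have e2 : ‖em (L * θ) * (u (w i) - u (w' i)) * Q * M‖ = ‖u (w i) - u (w' i)‖ * ‖M‖ := by
      rw [norm_mul, norm_mul, norm_mul, norm_em, hnr]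
      ring
    rw [← e2, e1]
    calc _ ≤ ‖em (L * θ) * (u (w i) * Q) * M - N‖ + ‖em (L * θ) * (u (w' i) * Q) * M - N‖ :=
          norm_sub_le _ _
      _ ≤ z + z := add_le_add hg2 hg2'
      _ = 2 * z := by ring
  have hMl : c - z ≤ ‖M‖ := by
    have e2 : ‖em (L * θ) * (u (w' i) * Q) * M‖ = ‖M‖ := by
      rw [norm_mul, norm_mul, norm_mul, norm_em, hnr, hu.1]
      ring
    have e3 : ‖N‖ ≤ ‖em (L * θ) * (u (w' i) * Q) * M‖ +
        ‖em (L * θ) * (u (w' i) * Q) * M - N‖ := by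
      have := norm_sub_norm_le N (N - em (L * θ) * (u (w' i) * Q) * M)
      have h7 : N - (N - em (L * θ) * (u (w' i) * Q) * M) = em (L * θ) * (u (w' i) * Q) * M := by
        ring
      have h8 : ‖N - em (L * θ) * (u (w' i) * Q) * M‖ = ‖em (L * θ) * (u (w' i) * Q) * M - N‖ :=
        norm_sub_rev _ _
      rw [h7, h8] at this
      linarith
    rw [e2] at e3
    linarith
  have hζ1 := hsep _ _ hne'
  have hζ2 : ζ ≤ 2 := by
    have := norm_sub_le (u (w i)) (u (w' i))
    rw [hu.1, hu.1] at this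
    linarith
  have hM0 : 0 ≤ ‖M‖ := norm_nonneg _
  have h9 : ζ * ‖M‖ ≤ 2 * z := le_trans (mul_le_mul_of_nonneg_right hζ1 hM0) hdiff
  have h10 : ζ * (c - z) ≤ ζ * ‖M‖ := mul_le_mul_of_nonneg_left hMl hζ.le
  have h11 : ζ * z ≤ 2 * z := mul_le_mul_of_nonneg_right hζ2 hz
  nlinarith

end Pool.Agent.H40.LF
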