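import Pool.Agent.H40.LF.SDM

/-!
Project LF, row SDN: the primes with a flag on the components.
-/

set_option autoImplicit false

open MeasureTheory ProbabilityTheory Filter Topology Finset
open scoped Nat ENNReal

namespace Pool.Agent.H40.LF

open Pool.Agent.H28.LF
open Pool.Agent.H24.T2 (Pset)
open Pool.Agent.H67.AG (avgP)

theorem int_kreal (P : Measure Yi) [IsProbabilityMeasure P] (κ : Kernel Yi Yi) [IsMarkovKernel κ]
    (hB : ∀ B, MeasurableSet B → P B = ∫⁻ ω, κ ω B ∂P) {A : Set Yi} (hA : MeasurableSet A) :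
    ∫ ω, (κ ω).real A ∂P = P.real A := by
  unfold Measure.real
  rw [integral_toReal (κ.measurable_coe hA).aemeasurable
    (Filter.Eventually.of_forall fun ω => measure_lt_top _ _), ← hB A hA]

theorem int_able (P : Measure Yi) [IsProbabilityMeasure P] (κ : Kernel Yi Yi) [IsMarkovKernel κ]
    {A : Set Yi} (hA : MeasurableSet A) : Integrable (fun ω => (κ ω).real A) P := by
  refine Integrable.of_bound (meas_kreal κ hA).aestronglyMeasurable 1
    (Filter.Eventually.of_forall fun ω => ?_)
  rw [Real.norm_eq_abs, abs_of_nonneg measureReal_nonneg]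
  exact measureReal_le_one

theorem zero_one (ν : Measure Yi) (hν : CompY ν) (F : Set Xi) (hF : MeasurableSet F)
    (hFi : shX ⁻¹' F = F) (p : ℕ) (hp : p.Prime) :
    ν.real (xiY p ⁻¹' F) = 0 ∨ ν.real (xiY p ⁻¹' F) = 1 := by
  have := hν.prob
  have hm : MeasurableSet (xiY p ⁻¹' F) := meas_xiY p hF
  have hinv : shY ⁻¹' (xiY p ⁻¹' F) =ᵐ[ν] xiY p ⁻¹' F := by
    refine Filter.eventuallyEq_set.2 ?_
    filter_upwards [hν.stp p hp] with ω hω
    have h1 : ∀ ξ : Xi, shX ξ ∈ F ↔ ξ ∈ F := fun ξ => by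
      conv_rhs => rw [← hFi]
      rfl
    change xiY p (shY ω) ∈ F ↔ xiY p ω ∈ F
    rcases hω with h | h
    · rw [h]
    · rw [h]
      exact h1 _
  rcases hν.erg.quasiErgodic.ae_empty_or_univ₀ hm.nullMeasurableSet hinv with h | h
  · left
    rw [measureReal_congr h]
    simp
  · right
    rw [measureReal_congr h]
    simp

theorem meas_sY (κ : Kernel Yi Yi) (F : Set Xi) (hF : MeasurableSet F) (p : ℕ) :
    Measurable fun ω => sY F (κ ω) p := by
  unfold sY
  refine Measurable.ite ?_ measurable_const measurable_const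
  exact (meas_kreal κ (meas_xiY p hF)) (measurableSet_singleton 1)

theorem sY_nonneg (F : Set Xi) (ν : Measure Yi) (p : ℕ) : 0 ≤ sY F ν p := by
  unfold sY
  split_ifs <;> norm_num

theorem sY_le (F : Set Xi) (ν : Measure Yi) (p : ℕ) : sY F ν p ≤ 1 := by
  unfold sY
  split_ifs <;> norm_num

theorem pf_SDN : T_SDN := by
  intro PX P F κ _ γ₀ m hPX hS hF hFi hγ hB hC hne
  have := hS.prob
  have hcard : (0 : ℝ) < ((Pset 2 m).card : ℝ) := by
    exact_mod_cast card_pos.2 hne
  have hgm : Measurable fun ω => avgP 2 m (sY F (κ ω)) := by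
    unfold avgP
    exact (Finset.measurable_sum _ fun p _ => meas_sY κ F hF p).div_const _
  have hSm : MeasurableSet {ω | γ₀ / 2 ≤ avgP 2 m (sY F (κ ω))} :=
    measurableSet_le measurable_const hgm
  refine ⟨hSm, ?_⟩
  rcases lt_or_ge γ₀ 0 with hneg | hpos
  · have : (0 : ℝ) ≤ P.real {ω | γ₀ / 2 ≤ avgP 2 m (sY F (κ ω))} := measureReal_nonneg
    linarith
  have hg1 : ∀ ω, avgP 2 m (sY F (κ ω)) ≤ 1 := by
    intro ω
    unfold avgP
    rw [div_le_one hcard]
    calc ∑ p ∈ Pset 2 m, sY F (κ ω) p ≤ ∑ p ∈ Pset 2 m, (1 : ℝ) :=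
          sum_le_sum fun p _ => sY_le _ _ _
      _ = _ := by simp
  have hsi : ∀ p, Integrable (fun ω => sY F (κ ω) p) P := fun p =>
    Integrable.of_bound (meas_sY κ F hF p).aestronglyMeasurable 1
      (Filter.Eventually.of_forall fun ω => by
        rw [Real.norm_eq_abs, abs_of_nonneg (sY_nonneg _ _ _)]
        exact sY_le _ _ _)
  have hsint : ∀ p ∈ Pset 2 m, ∫ ω, sY F (κ ω) p ∂P = PX.real F := by
    intro p hp
    have hpp : p.Prime := (mem_filter.1 hp).2.1
    have h1 : (fun ω => sY F (κ ω) p) =ᵐ[P] fun ω => (κ ω).real (xiY p ⁻¹' F) := by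
      filter_upwards [hC] with ω hω
      rcases zero_one (κ ω) hω F hF hFi p hpp with h | h
      · simp [sY, h]
      · simp [sY, h]
    rw [integral_congr_ae h1, int_kreal P κ hB (meas_xiY p hF)]
    unfold Measure.real
    rw [(hS.law p hpp).measure_preimage hF.nullMeasurableSet]
  have hgint : ∫ ω, avgP 2 m (sY F (κ ω)) ∂P = PX.real F := by
    unfold avgP
    rw [integral_div, integral_finsetSum _ fun p _ => hsi p, sum_congr rfl hsint]
    simp only [sum_const, nsmul_eq_mul]
    field_simp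
  have hgi : Integrable (fun ω => avgP 2 m (sY F (κ ω))) P := by
    unfold avgP
    exact (integrable_finsetSum _ fun p _ => hsi p).div_const _
  set S := {ω | γ₀ / 2 ≤ avgP 2 m (sY F (κ ω))} with hSdef
  have hle : ∫ ω, avgP 2 m (sY F (κ ω)) ∂P ≤
      ∫ ω, (γ₀ / 2 + S.indicator (fun _ => (1 : ℝ)) ω) ∂P := by
    refine integral_mono hgi ?_ fun ω => ?_
    · exact (integrable_const _).add ((integrable_const (1 : ℝ)).indicator hSm)
    · by_cases hω : ω ∈ S
      · simp only [Set.indicator_of_mem hω]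
        have := hg1 ω
        linarith
      · simp only [Set.indicator_of_notMem hω]
        have h2 : ¬ γ₀ / 2 ≤ avgP 2 m (sY F (κ ω)) := hω
        linarith
  rw [integral_add (integrable_const _) ((integrable_const (1 : ℝ)).indicator hSm),
    integral_indicator hSm, hgint] at hle
  simp only [integral_const, smul_eq_mul, mul_one, probReal_univ, one_mul,
    measureReal_restrict_apply_univ] at hle
  linarith

end Pool.Agent.H40.LF
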