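import Pool.Agent.H40.LF.SDN

/-!
Project LF, row SEB: the exceptional sets on the components (Markov's inequality).
-/

set_option autoImplicit false

open MeasureTheory ProbabilityTheory Filter Topology Finset
open scoped Nat ENNReal

namespace Pool.Agent.H40.LF

open Pool.Agent.H28.LF
open Pool.Agent.H24.T2 (Pset)
open Pool.Agent.H67.AG (avgP)

section avg

variable (P : Measure Yi) [IsProbabilityMeasure P] (κ : Kernel Yi Yi) [IsMarkovKernel κ]

omit [IsMarkovKernel κ] in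
theorem avg_meas {A : ℕ → Set Yi} (hA : ∀ p, MeasurableSet (A p)) (m : ℕ) :
    Measurable fun ω => avgP 2 m (fun p => p * (κ ω).real (A p)) := by
  unfold avgP
  exact (Finset.measurable_sum _ fun p _ => (meas_kreal κ (hA p)).const_mul _).div_const _

theorem avg_int {A : ℕ → Set Yi} (hA : ∀ p, MeasurableSet (A p)) (m : ℕ) :
    Integrable (fun ω => avgP 2 m (fun p => p * (κ ω).real (A p))) P := by
  unfold avgP
  exact (integrable_finsetSum _ fun p _ => (int_able P κ (hA p)).const_mul _).div_const _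

theorem avg_nonneg {F : ℕ → ℝ} (hF : ∀ p, 0 ≤ F p) (m : ℕ) : 0 ≤ avgP 2 m F := by
  unfold avgP
  exact div_nonneg (sum_nonneg fun p _ => hF p) (Nat.cast_nonneg _)

theorem avg_mono {F G : ℕ → ℝ} (m : ℕ) (h : ∀ p ∈ Pset 2 m, F p ≤ G p) :
    avgP 2 m F ≤ avgP 2 m G := by
  unfold avgP
  exact div_le_div_of_nonneg_right (sum_le_sum h) (Nat.cast_nonneg _)

theorem avg_const (m : ℕ) (hne : (Pset 2 m).Nonempty) (c : ℝ) : avgP 2 m (fun _ => c) = c := by
  have hcard : (0 : ℝ) < ((Pset 2 m).card : ℝ) := by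
    exact_mod_cast card_pos.2 hne
  unfold avgP
  simp only [sum_const, nsmul_eq_mul]
  field_simp

theorem avg_val (hB : ∀ B, MeasurableSet B → P B = ∫⁻ ω, κ ω B ∂P) {A : ℕ → Set Yi}
    (hA : ∀ p, MeasurableSet (A p)) (m : ℕ) :
    ∫ ω, avgP 2 m (fun p => p * (κ ω).real (A p)) ∂P = avgP 2 m (fun p => p * P.real (A p)) := by
  unfold avgP
  rw [integral_div, integral_finsetSum _ fun p _ => (int_able P κ (hA p)).const_mul _]
  congr 1
  refine sum_congr rfl fun p _ => ?_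
  rw [integral_const_mul, int_kreal P κ hB (hA p)]

theorem markov_real {f : Yi → ℝ} (hf : ∀ ω, 0 ≤ f ω) (hi : Integrable f P) {ε c : ℝ} (hε : 0 < ε)
    (hc : ∫ ω, f ω ∂P ≤ c) : P.real {ω | ε < f ω} ≤ c / ε := by
  have h1 := mul_meas_ge_le_integral_of_nonneg (Filter.Eventually.of_forall hf) hi ε
  have h2 : P.real {ω | ε < f ω} ≤ P.real {ω | ε ≤ f ω} :=
    measureReal_mono (fun ω hω => by
      simp only [Set.mem_ofPred_eq] at hω ⊢
      exact hω.le)
  rw [le_div_iff₀ hε]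
  nlinarith

end avg

theorem pf_SEB : T_SEB := by
  intro PX P B κ _ γ₀ i m hPX hS hBm hBr hB hγ hne him
  have := hS.prob
  have hAm : ∀ r p, MeasurableSet (flY p ∩ xiY p ⁻¹' (B r)) := fun r p =>
    (meas_flY p).inter (meas_xiY p (hBm r))
  have hEm : ∀ j p, MeasurableSet (flY p ∩ ExY p j) := fun j p =>
    (meas_flY p).inter (meas_ExY p j)
  set f : ℕ → Yi → ℝ := fun r ω =>
    avgP 2 m (fun p => p * (κ ω).real (flY p ∩ xiY p ⁻¹' (B r))) with hf
  set g : ℕ → Yi → ℝ := fun j ω =>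
    avgP 2 m (fun p => p * (κ ω).real (flY p ∩ ExY p j)) with hg
  have hfm : ∀ r, Measurable (f r) := fun r => avg_meas κ (hAm r) m
  have hgm : ∀ j, Measurable (g j) := fun j => avg_meas κ (hEm j) m
  have hf0 : ∀ r ω, 0 ≤ f r ω := fun r ω =>
    avg_nonneg (fun p => mul_nonneg (Nat.cast_nonneg _) measureReal_nonneg) m
  have hg0 : ∀ j ω, 0 ≤ g j ω := fun j ω =>
    avg_nonneg (fun p => mul_nonneg (Nat.cast_nonneg _) measureReal_nonneg) m
  have hfi : ∀ r, ∫ ω, f r ω ∂P ≤ γ₀ / (64 * 4 ^ r) := by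
    intro r
    rw [hf, avg_val P κ hB (hAm r) m]
    refine le_trans (avg_mono (G := fun _ => γ₀ / (64 * 4 ^ r)) m fun p hp => ?_)
      (avg_const m hne _).le
    have hpp : p.Prime := (mem_filter.1 hp).2.1
    have hp0 : (0 : ℝ) < p := by exact_mod_cast hpp.pos
    rw [hS.div p hpp _ (hBm r), mul_div_cancel₀ _ hp0.ne']
    exact hBr r
  have hgi : ∀ j, 0 < j → ∫ ω, g j ω ∂P ≤ 1 / 2 ^ m := by
    intro j hj
    rw [hg, avg_val P κ hB (hEm j) m]
    refine le_trans (avg_mono (G := fun _ => 1 / 2 ^ m) m fun p hp => ?_) (avg_const m hne _).le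
    have hpp : p.Prime := (mem_filter.1 hp).2.1
    have hpm : 2 ^ m < p := (mem_Ioc.1 (mem_filter.1 hp).1).1
    have hpm' : (2 : ℝ) ^ m < p := by exact_mod_cast hpm
    have hp0 : (0 : ℝ) < p := by exact_mod_cast hpp.pos
    calc (p : ℝ) * P.real (flY p ∩ ExY p j) ≤ p * (1 / (p : ℝ) ^ 2) :=
          mul_le_mul_of_nonneg_left (hS.rel p hpp j hj) hp0.le
      _ = 1 / p := by field_simp
      _ ≤ 1 / 2 ^ m := one_div_le_one_div_of_le (by positivity) hpm'.le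
  have hSeq : {ω | (∀ r : ℕ, f r ω ≤ 1 / 2 ^ r) ∧
      ∀ j : ℕ, 0 < j → j ≤ i → g j ω ≤ 1 / ((i : ℝ) + 1) ^ 2} =
      (⋂ r : ℕ, {ω | f r ω ≤ 1 / 2 ^ r}) ∩
        ⋂ j ∈ {j : ℕ | 0 < j ∧ j ≤ i}, {ω | g j ω ≤ 1 / ((i : ℝ) + 1) ^ 2} := by
    ext ω
    simp only [Set.mem_inter_iff, Set.mem_iInter, Set.mem_ofPred_eq, and_imp]
  have hSm : MeasurableSet {ω | (∀ r : ℕ, f r ω ≤ 1 / 2 ^ r) ∧
      ∀ j : ℕ, 0 < j → j ≤ i → g j ω ≤ 1 / ((i : ℝ) + 1) ^ 2} := by
    rw [hSeq]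
    exact (MeasurableSet.iInter fun r => measurableSet_le (hfm r) measurable_const).inter
      (MeasurableSet.biInter (Set.to_countable _) fun j _ =>
        measurableSet_le (hgm j) measurable_const)
  refine ⟨hSm, ?_⟩
  set S := {ω | (∀ r : ℕ, f r ω ≤ 1 / 2 ^ r) ∧
      ∀ j : ℕ, 0 < j → j ≤ i → g j ω ≤ 1 / ((i : ℝ) + 1) ^ 2} with hSdef
  have hi0 : (0 : ℝ) < (i : ℝ) + 1 := by positivity
  -- the two parts of the complement
  have hA : P.real (⋃ r : ℕ, {ω | 1 / 2 ^ r < f r ω}) ≤ γ₀ / 32 := by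
    have h1 : ∀ r : ℕ, P {ω | 1 / 2 ^ r < f r ω} ≤ ENNReal.ofReal (γ₀ / 64 * (1 / 2) ^ r) := by
      intro r
      rw [← ofReal_measureReal (μ := P) (s := {ω | 1 / 2 ^ r < f r ω})]
      refine ENNReal.ofReal_le_ofReal ?_
      refine le_trans (markov_real P (hf0 r) (avg_int P κ (hAm r) m) (by positivity) (hfi r)) ?_
      have h4 : (4 : ℝ) ^ r = 2 ^ r * 2 ^ r := by
        rw [← mul_pow]
        norm_num
      rw [h4, one_div_pow]
      apply le_of_eq
      field_simp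
    have h2 : HasSum (fun r : ℕ => γ₀ / 64 * (1 / 2 : ℝ) ^ r) (γ₀ / 64 * 2) :=
      hasSum_geometric_two.mul_left _
    have h3 : P (⋃ r : ℕ, {ω | 1 / 2 ^ r < f r ω}) ≤ ENNReal.ofReal (γ₀ / 64 * 2) := by
      refine le_trans (measure_iUnion_le _) (le_trans (ENNReal.tsum_le_tsum h1) ?_)
      rw [← ENNReal.ofReal_tsum_of_nonneg (fun r => by positivity) h2.summable, h2.tsum_eq]
    have h5 := ENNReal.toReal_mono ENNReal.ofReal_ne_top h3
    rw [ENNReal.toReal_ofReal (by positivity)] at h5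
    have h6 : P.real (⋃ r : ℕ, {ω | 1 / 2 ^ r < f r ω}) ≤ γ₀ / 64 * 2 := h5
    linarith
  have hC : P.real (⋃ j ∈ Finset.Icc 1 i, {ω | 1 / ((i : ℝ) + 1) ^ 2 < g j ω}) ≤ γ₀ / 64 := by
    refine le_trans (measureReal_biUnion_finset_le _ _) ?_
    have h1 : ∀ j ∈ Finset.Icc 1 i, P.real {ω | 1 / ((i : ℝ) + 1) ^ 2 < g j ω} ≤
        ((i : ℝ) + 1) ^ 2 / 2 ^ m := by
      intro j hj
      refine le_trans (markov_real P (hg0 j) (avg_int P κ (hEm j) m) (by positivity)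
        (hgi j (mem_Icc.1 hj).1)) ?_
      apply le_of_eq
      field_simp
    refine le_trans (sum_le_sum h1) ?_
    simp only [sum_const, Nat.card_Icc, nsmul_eq_mul, Nat.add_sub_cancel]
    have h2m : (0 : ℝ) < 2 ^ m := by positivity
    rw [← mul_div_assoc, div_le_iff₀ h2m]
    have h3 : (i : ℝ) * ((i : ℝ) + 1) ^ 2 ≤ ((i : ℝ) + 1) ^ 3 := by
      have : (0 : ℝ) ≤ ((i : ℝ) + 1) ^ 2 := by positivity
      nlinarith
    linarith
  have hcomp : Sᶜ ⊆ (⋃ r : ℕ, {ω | 1 / 2 ^ r < f r ω}) ∪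
      ⋃ j ∈ Finset.Icc 1 i, {ω | 1 / ((i : ℝ) + 1) ^ 2 < g j ω} := by
    intro ω hω
    by_contra hcon
    apply hω
    simp only [Set.mem_union, Set.mem_iUnion, not_or, not_exists, Set.mem_ofPred_eq, not_lt,
      Finset.mem_Icc] at hcon
    exact ⟨hcon.1, fun j hj hji => hcon.2 j ⟨hj, hji⟩⟩
  have hS1 : P.real Sᶜ ≤ γ₀ / 32 + γ₀ / 64 :=
    le_trans (measureReal_mono hcomp) (le_trans (measureReal_union_le _ _) (add_le_add hA hC))
  rw [probReal_compl_eq_one_sub hSm] at hS1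
  linarith

end Pool.Agent.H40.LF
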