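import Pool.Agent.H25.LF.Targets

/-!
# Row CRD: a crude bound for a range of primes
-/

set_option autoImplicit false

open Finset Real ArithmeticFunction

namespace Pool.Agent.H40.LF

open Pool.Agent.H25.LF
open Pool.Agent.H30.PF (S8)
open Pool.Agent.H30.BV (gg)

theorem gg_nonneg' (l : ℕ) (hl : 1 ≤ l) : 0 ≤ gg l := by
  unfold gg
  split_ifs
  · have : (1 : ℝ) ≤ l := by exact_mod_cast hl
    exact div_nonneg (by norm_num) (by linarith)
  · exact le_rfl

theorem NN_two (x : ℝ) : NN x 2 ≤ 1 := by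
  unfold NN
  have h : (PR x).filter (Dv 2) ⊆ {2} := by
    intro p hp
    rw [Finset.mem_filter] at hp
    obtain ⟨h1, h2⟩ := hp
    have hp1 : p.Prime := (Finset.mem_filter.1 h1).2
    rw [Finset.mem_singleton]
    have h3 : (2 : ℤ) ∣ (p : ℤ) ^ 2 - 2 := h2
    have h4 : (2 : ℤ) ∣ (p : ℤ) ^ 2 := by
      have := dvd_add h3 (dvd_refl (2 : ℤ))
      simpa using this
    have h5 : (2 : ℤ) ∣ (p : ℤ) := Int.prime_two.dvd_of_dvd_pow h4
    have h6 : 2 ∣ p := by exact_mod_cast h5
    exact ((Nat.prime_dvd_prime_iff_eq Nat.prime_two hp1).1 h6).symm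
  have h1 := Finset.card_le_card h
  rw [Finset.card_singleton] at h1
  exact_mod_cast h1

theorem pf_CRD (hNNB : T_NNB) (hMER : T_MER) : T_CRD := by
  intro θ hθ0 hθ1
  obtain ⟨Y, hY2, hY⟩ := hNNB 1 one_pos
  obtain ⟨C0, hC0, hM⟩ := hMER
  have h1θ : 0 < 1 - θ := by linarith
  refine ⟨3 / (1 - θ) + C0 + 1, max 3 (Y ^ (1 / (1 - θ))), by positivity, fun x hx y z hy hyz hz => ?_⟩
  have hx3 : 3 ≤ x := (le_max_left _ _).trans hx
  have hx0 : 0 < x := by linarith
  have hxY : Y ^ (1 / (1 - θ)) ≤ x := (le_max_right _ _).trans hx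
  have hY0 : 0 < Y := by linarith
  have hxY' : Y ≤ x ^ (1 - θ) := by
    calc Y = (Y ^ (1 / (1 - θ))) ^ (1 - θ) := by
          rw [← Real.rpow_mul hY0.le, one_div, inv_mul_cancel₀ h1θ.ne', Real.rpow_one]
      _ ≤ x ^ (1 - θ) := Real.rpow_le_rpow (Real.rpow_nonneg hY0.le _) hxY h1θ.le
  have hlx : 0 < Real.log x := Real.log_pos (by linarith)
  have hlx1 : Real.log x ≤ x := (Real.log_le_sub_one_of_pos hx0).trans (by linarith)
  set A : ℝ := 3 * x / ((1 - θ) * Real.log x) with hA
  have hA0 : 0 ≤ A := by positivity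
  have hterm : ∀ l ∈ (PR z).filter (fun l : ℕ => y < (l : ℝ)),
      Real.log l * NN x l ≤ A * (Real.log l * gg l) + (if l = 2 then Real.log 2 else 0) := by
    intro l hl
    rw [Finset.mem_filter] at hl
    obtain ⟨h1, h2⟩ := hl
    have hlp : l.Prime := (Finset.mem_filter.1 h1).2
    have hlz : (l : ℝ) ≤ z := by
      have h3 := (Finset.mem_Icc.1 (Finset.mem_filter.1 h1).1).2
      exact (Nat.le_floor_iff (by linarith)).1 h3
    have hl1 : (1 : ℝ) ≤ l := by exact_mod_cast hlp.one_lt.le
    have hll : 0 ≤ Real.log l := Real.log_nonneg hl1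
    have hgg := gg_nonneg' l hlp.one_lt.le
    by_cases h2l : l = 2
    · rw [if_pos h2l, h2l]
      have h3 := NN_two x
      have h4 : 0 ≤ Real.log 2 := Real.log_nonneg (by norm_num)
      have h5 := gg_nonneg' 2 (by norm_num)
      have h6 : 0 ≤ A * (Real.log ((2 : ℕ) : ℝ) * gg 2) := by
        have : 0 ≤ Real.log ((2 : ℕ) : ℝ) := by
          exact_mod_cast h4
        positivity
      have h7 : Real.log ((2 : ℕ) : ℝ) * NN x 2 ≤ Real.log 2 := by
        rw [Nat.cast_ofNat]
        exact mul_le_of_le_one_right h4 h3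
      linarith
    · rw [if_neg h2l, add_zero]
      have hlxθ : (l : ℝ) ≤ x ^ θ := hlz.trans hz
      have hl0 : (0 : ℝ) < l := by linarith
      have hYl : Y * l ^ 1 ≤ x := by
        rw [pow_one]
        calc Y * l ≤ x ^ (1 - θ) * x ^ θ := mul_le_mul hxY' hlxθ hl0.le (by positivity)
          _ = x := by
            rw [← Real.rpow_add hx0]
            norm_num
      have h3 := hY x l 1 hlp h2l le_rfl hYl
      rw [pow_one, pow_one, Nat.totient_prime hlp] at h3
      have hlog : (1 - θ) * Real.log x ≤ Real.log (x / l) := by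
        rw [Real.log_div hx0.ne' hl0.ne']
        have h4 : Real.log l ≤ θ * Real.log x := by
          have := Real.log_le_log hl0 hlxθ
          rwa [Real.log_rpow hx0] at this
        linarith
      have hl2 : (1 : ℝ) < l := by exact_mod_cast hlp.one_lt
      have h5 : NN x l ≤ A * gg l := by
        refine h3.trans ?_
        unfold gg
        split_ifs
        · have hc : ((l - 1 : ℕ) : ℝ) = (l : ℝ) - 1 := by
            rw [Nat.cast_sub hlp.one_lt.le, Nat.cast_one]
          rw [hc, hA]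
          have hlog0 : 0 < (1 - θ) * Real.log x := by positivity
          have hl10 : 0 < (l : ℝ) - 1 := by linarith
          have h6 : (2 + 1) * x / (((l : ℝ) - 1) * Real.log (x / l)) ≤
              3 * x / (((l : ℝ) - 1) * ((1 - θ) * Real.log x)) := by
            rw [show (2 + 1 : ℝ) = 3 by norm_num]
            refine div_le_div_of_nonneg_left (by positivity) (by positivity) ?_
            exact mul_le_mul_of_nonneg_left hlog hl10.le
          calc (2 : ℝ) * ((2 + 1) * x / (((l : ℝ) - 1) * Real.log (x / l)))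
              ≤ 2 * (3 * x / (((l : ℝ) - 1) * ((1 - θ) * Real.log x))) :=
                mul_le_mul_of_nonneg_left h6 (by norm_num)
            _ = 3 * x / ((1 - θ) * Real.log x) * (2 / ((l : ℝ) - 1)) := by
                field_simp
        · simp
      calc Real.log l * NN x l ≤ Real.log l * (A * gg l) := mul_le_mul_of_nonneg_left h5 hll
        _ = A * (Real.log l * gg l) := by ring
  have hsum : SL y z (NN x) ≤ A * SL y z gg + Real.log 2 := by
    unfold SL
    refine (Finset.sum_le_sum hterm).trans ?_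
    rw [Finset.sum_add_distrib, ← Finset.mul_sum]
    have h4 : 0 ≤ Real.log 2 := Real.log_nonneg (by norm_num)
    have h5 : ∑ l ∈ (PR z).filter (fun l : ℕ => y < (l : ℝ)), (if l = 2 then Real.log 2 else 0) ≤
        Real.log 2 := by
      rw [Finset.sum_ite_eq' _ 2 (fun _ => Real.log 2)]
      split_ifs
      · exact le_rfl
      · exact h4
    linarith
  refine hsum.trans ?_
  have hMM := hM y z hy hyz
  have hzy : 0 ≤ Real.log (z / y) := Real.log_nonneg (by
    rw [le_div_iff₀ (by linarith)]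
    linarith)
  have h1 : A * SL y z gg ≤ A * (Real.log (z / y) + C0) := mul_le_mul_of_nonneg_left hMM hA0
  have hA' : A = 3 / (1 - θ) * (x / Real.log x) := by
    rw [hA]
    field_simp
  have hxl : 1 ≤ x / Real.log x := by
    rw [le_div_iff₀ hlx]
    linarith
  have hlog2 : Real.log 2 ≤ 1 := by
    have := Real.log_two_lt_d9
    linarith
  have h3θ : 3 ≤ 3 / (1 - θ) := by
    rw [le_div_iff₀ h1θ]
    linarith
  set Lz := Real.log (z / y) with hLz
  set q := x / Real.log x with hq
  have e1 : (3 / (1 - θ) + C0 + 1) * x / Real.log x * (Lz + (3 / (1 - θ) + C0 + 1)) =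
      q * ((3 / (1 - θ) + C0 + 1) * (Lz + (3 / (1 - θ) + C0 + 1))) := by
    rw [hq]
    ring
  rw [e1]
  have h5 : A * (Lz + C0) + Real.log 2 ≤ q * (3 / (1 - θ) * (Lz + C0) + 3) := by
    rw [hA']
    nlinarith
  have h6 : 3 / (1 - θ) * (Lz + C0) + 3 ≤
      (3 / (1 - θ) + C0 + 1) * (Lz + (3 / (1 - θ) + C0 + 1)) := by
    set t := 3 / (1 - θ) with ht
    nlinarith [mul_nonneg hC0.le hzy, mul_nonneg hC0.le hC0.le]
  have h7 : q * (3 / (1 - θ) * (Lz + C0) + 3) ≤
      q * ((3 / (1 - θ) + C0 + 1) * (Lz + (3 / (1 - θ) + C0 + 1))) :=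
    mul_le_mul_of_nonneg_left h6 (by linarith)
  linarith

end Pool.Agent.H40.LF
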