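import Pool.Agent.H25.LF.Targets

/-!
# Row LBF: the weight of the pairs with a prime of middle size
-/

set_option autoImplicit false

open Finset Real ArithmeticFunction

namespace Pool.Agent.H40.LF

open Pool.Agent.H25.LF
open Pool.Agent.H30.PF (S8)
open Pool.Agent.H30.BV (NX wx WX gg)

/-- `SL` increases with the range -/
theorem SL_mono {y y' z z' : ℝ} {f : ℕ → ℝ} (hy : y' ≤ y) (hz : z ≤ z') (hf : ∀ l, 0 ≤ f l) :
    SL y z f ≤ SL y' z' f := by
  unfold SL
  refine Finset.sum_le_sum_of_subset_of_nonneg ?_ ?_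
  · intro l hl
    rw [Finset.mem_filter] at hl ⊢
    refine ⟨?_, hy.trans_lt hl.2⟩
    unfold PR at hl ⊢
    rw [Finset.mem_filter, Finset.mem_Icc] at hl ⊢
    exact ⟨⟨hl.1.1.1, hl.1.1.2.trans (Nat.floor_le_floor hz)⟩, hl.1.2⟩
  · intro l hl _
    have hlp : l.Prime := (Finset.mem_filter.1 (Finset.mem_filter.1 hl).1).2
    exact mul_nonneg (Real.log_nonneg (by exact_mod_cast hlp.one_lt.le)) (hf l)

theorem sum_log_le {y0 y L : ℝ} (hy : 0 ≤ y) (hL : 0 ≤ L) (hyL : Real.log y ≤ L) :
    ∑ l ∈ (PR y).filter (fun l : ℕ => y0 < (l : ℝ)), Real.log l ≤ y * L := by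
  calc ∑ l ∈ (PR y).filter (fun l : ℕ => y0 < (l : ℝ)), Real.log l
      ≤ ∑ l ∈ (PR y).filter (fun l : ℕ => y0 < (l : ℝ)), L := by
        refine Finset.sum_le_sum fun l hl => ?_
        have h1 := (Finset.mem_filter.1 hl).1
        unfold PR at h1
        rw [Finset.mem_filter, Finset.mem_Icc] at h1
        have h2 : (l : ℝ) ≤ y := (Nat.le_floor_iff hy).1 h1.1.2
        have h3 : (0 : ℝ) < l := by
          have := h1.2.pos
          exact_mod_cast this
        exact (Real.log_le_log h3 h2).trans hyL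
    _ = (((PR y).filter (fun l : ℕ => y0 < (l : ℝ))).card : ℝ) * L := by
        rw [Finset.sum_const, nsmul_eq_mul]
    _ ≤ y * L := by
        refine mul_le_mul_of_nonneg_right ?_ hL
        have h1 : ((PR y).filter (fun l : ℕ => y0 < (l : ℝ))).card ≤ (Icc 1 ⌊y⌋₊).card := by
          refine Finset.card_le_card fun l hl => ?_
          exact (Finset.mem_filter.1 (Finset.mem_filter.1 hl).1).1
        rw [Nat.card_Icc, Nat.add_sub_cancel] at h1
        have h2 : (((PR y).filter (fun l : ℕ => y0 < (l : ℝ))).card : ℝ) ≤ (⌊y⌋₊ : ℝ) := by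
          exact_mod_cast h1
        exact h2.trans (Nat.floor_le hy)

theorem NN_nonneg (y : ℝ) (d : ℕ) : 0 ≤ NN y d := Nat.cast_nonneg _

/-- the pointwise bound -/
theorem LBF_point (hMAJ : T_MAJ) (hLLN : T_LLN) (w x L : ℝ) (M : ℕ) (hw0 : 0 < w) (hw1 : w < 1)
    (hM : 1 ≤ M) (hx : 0 < x) (hx' : 1 ≤ x * Real.exp (1 - M)) (hxx : x * Real.exp (1 - M) ≤ x)
    (hL : L = Real.log x) (l : ℕ) (hl : 0 ≤ gg l) :
    LL x l ≤ gg l * Chebyshev.psi (x * Real.exp w) +
      (∑ m ∈ Icc 1 M, (m : ℝ) * (|WD (x * Real.exp (w - m)) l - WX (x * Real.exp (w - m)) * gg l| +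
        |WD (x * Real.exp (-m)) l - WX (x * Real.exp (-m)) * gg l|)) / w +
      (1 + M) * (L * NN (x * Real.exp (1 - M)) l + 2 * √x * L) := by
  obtain ⟨h1, h2⟩ := hMAJ w M x hw0 hw1 hM hx
  have h3 := h1 l
  have h4 : LL (x * Real.exp (1 - M)) l ≤ L * NN (x * Real.exp (1 - M)) l + 2 * √x * L := by
    refine (hLLN _ l hx').trans ?_
    have h5 : Real.log (x * Real.exp (1 - M)) ≤ L := by
      rw [hL]
      exact Real.log_le_log (by linarith) hxx
    have h6 : 0 ≤ Real.log (x * Real.exp (1 - M)) := Real.log_nonneg hx'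
    have h7 : √(x * Real.exp (1 - M)) ≤ √x := Real.sqrt_le_sqrt hxx
    have h8 := NN_nonneg (x * Real.exp (1 - M)) l
    have h9 : 0 ≤ √(x * Real.exp (1 - M)) := Real.sqrt_nonneg _
    have h10 : 0 ≤ √x := Real.sqrt_nonneg _
    have h11 : 2 * √(x * Real.exp (1 - M)) * Real.log (x * Real.exp (1 - M)) ≤ 2 * √x * L :=
      mul_le_mul (by linarith) h5 h6 (by positivity)
    have h12 := mul_le_mul_of_nonneg_right h5 h8
    linarith
  have h5 : (∑ m ∈ Icc 1 M, (m : ℝ) * (WD (x * Real.exp (w - m)) l -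
      WD (x * Real.exp (-m)) l)) / w ≤ gg l * Chebyshev.psi (x * Real.exp w) +
      (∑ m ∈ Icc 1 M, (m : ℝ) * (|WD (x * Real.exp (w - m)) l - WX (x * Real.exp (w - m)) * gg l| +
        |WD (x * Real.exp (-m)) l - WX (x * Real.exp (-m)) * gg l|)) / w := by
    have h6 : ∑ m ∈ Icc 1 M, (m : ℝ) * (WD (x * Real.exp (w - m)) l -
        WD (x * Real.exp (-m)) l) ≤ gg l * (∑ m ∈ Icc 1 M, (m : ℝ) *
        (WX (x * Real.exp (w - m)) - WX (x * Real.exp (-m)))) +
        ∑ m ∈ Icc 1 M, (m : ℝ) * (|WD (x * Real.exp (w - m)) l -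
        WX (x * Real.exp (w - m)) * gg l| +
        |WD (x * Real.exp (-m)) l - WX (x * Real.exp (-m)) * gg l|) := by
      rw [Finset.mul_sum, ← Finset.sum_add_distrib]
      refine Finset.sum_le_sum fun m _ => ?_
      have h7 := le_abs_self (WD (x * Real.exp (w - m)) l - WX (x * Real.exp (w - m)) * gg l)
      have h8 := neg_le_abs (WD (x * Real.exp (-m)) l - WX (x * Real.exp (-m)) * gg l)
      have h9 : (0 : ℝ) ≤ m := Nat.cast_nonneg m
      have h10 : WD (x * Real.exp (w - m)) l - WD (x * Real.exp (-m)) l ≤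
          gg l * (WX (x * Real.exp (w - m)) - WX (x * Real.exp (-m))) +
          (|WD (x * Real.exp (w - m)) l - WX (x * Real.exp (w - m)) * gg l| +
          |WD (x * Real.exp (-m)) l - WX (x * Real.exp (-m)) * gg l|) := by linarith
      calc (m : ℝ) * (WD (x * Real.exp (w - m)) l - WD (x * Real.exp (-m)) l)
          ≤ m * (gg l * (WX (x * Real.exp (w - m)) - WX (x * Real.exp (-m))) +
          (|WD (x * Real.exp (w - m)) l - WX (x * Real.exp (w - m)) * gg l| +
          |WD (x * Real.exp (-m)) l - WX (x * Real.exp (-m)) * gg l|)) :=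
            mul_le_mul_of_nonneg_left h10 h9
        _ = _ := by ring
    have h7 := div_le_div_of_nonneg_right h6 hw0.le
    rw [add_div, mul_div_assoc] at h7
    have h8 := mul_le_mul_of_nonneg_left h2 hl
    linarith
  have h6 : (1 + (M : ℝ)) * LL (x * Real.exp (1 - M)) l ≤
      (1 + M) * (L * NN (x * Real.exp (1 - M)) l + 2 * √x * L) :=
    mul_le_mul_of_nonneg_left h4 (by positivity)
  linarith

/-- the sum over the primes -/
theorem LBF_sum (hMAJ : T_MAJ) (hLLN : T_LLN) (w x L y0 y : ℝ) (M : ℕ) (hw0 : 0 < w) (hw1 : w < 1)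
    (hM : 1 ≤ M) (hx : 0 < x) (hx' : 1 ≤ x * Real.exp (1 - M)) (hxx : x * Real.exp (1 - M) ≤ x)
    (hL : L = Real.log x) :
    SL y0 y (LL x) ≤ Chebyshev.psi (x * Real.exp w) * SL y0 y gg +
      (∑ m ∈ Icc 1 M, (m : ℝ) *
        (SL y0 y (fun l => |WD (x * Real.exp (w - m)) l - WX (x * Real.exp (w - m)) * gg l|) +
        SL y0 y (fun l => |WD (x * Real.exp (-m)) l - WX (x * Real.exp (-m)) * gg l|))) / w +
      (1 + M) * (L * SL y0 y (NN (x * Real.exp (1 - M))) + 2 * √x * L *
        ∑ l ∈ (PR y).filter (fun l : ℕ => y0 < (l : ℝ)), Real.log l) := by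
  have h1 : ∀ l ∈ (PR y).filter (fun l : ℕ => y0 < (l : ℝ)), Real.log l * LL x l ≤
      Chebyshev.psi (x * Real.exp w) * (Real.log l * gg l) +
      (∑ m ∈ Icc 1 M, (m : ℝ) *
        (Real.log l * |WD (x * Real.exp (w - m)) l - WX (x * Real.exp (w - m)) * gg l| +
        Real.log l * |WD (x * Real.exp (-m)) l - WX (x * Real.exp (-m)) * gg l|)) / w +
      (1 + M) * (L * (Real.log l * NN (x * Real.exp (1 - M)) l) + 2 * √x * L * Real.log l) := by
    intro l hl
    have hlp : l.Prime := (Finset.mem_filter.1 (Finset.mem_filter.1 hl).1).2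
    have hl1 : (1 : ℝ) ≤ l := by exact_mod_cast hlp.one_lt.le
    have hll : 0 ≤ Real.log l := Real.log_nonneg hl1
    have hgg : 0 ≤ gg l := by
      unfold gg
      split_ifs
      · exact div_nonneg (by norm_num) (by linarith)
      · exact le_rfl
    have h2 := LBF_point hMAJ hLLN w x L M hw0 hw1 hM hx hx' hxx hL l hgg
    calc Real.log l * LL x l ≤ Real.log l * _ := mul_le_mul_of_nonneg_left h2 hll
      _ = _ := by
        have e1 : ∑ m ∈ Icc 1 M, (m : ℝ) *
            (Real.log l * |WD (x * Real.exp (w - m)) l - WX (x * Real.exp (w - m)) * gg l| +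
            Real.log l * |WD (x * Real.exp (-m)) l - WX (x * Real.exp (-m)) * gg l|) =
            Real.log l * ∑ m ∈ Icc 1 M, (m : ℝ) *
            (|WD (x * Real.exp (w - m)) l - WX (x * Real.exp (w - m)) * gg l| +
            |WD (x * Real.exp (-m)) l - WX (x * Real.exp (-m)) * gg l|) := by
          rw [Finset.mul_sum]
          refine Finset.sum_congr rfl fun m _ => ?_
          ring
        rw [e1]
        ring
  unfold SL
  refine (Finset.sum_le_sum h1).trans (le_of_eq ?_)
  rw [Finset.sum_add_distrib, Finset.sum_add_distrib, ← Finset.mul_sum, ← Finset.sum_div,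
    ← Finset.mul_sum, Finset.sum_add_distrib, ← Finset.mul_sum, ← Finset.mul_sum,
    Finset.sum_comm]
  simp only [← Finset.mul_sum, Finset.sum_add_distrib]

theorem sum_Icc_le (M : ℕ) : ∑ m ∈ Icc 1 M, (m : ℝ) ≤ (M : ℝ) ^ 2 := by
  calc ∑ m ∈ Icc 1 M, (m : ℝ) ≤ ∑ m ∈ Icc 1 M, (M : ℝ) := by
        refine Finset.sum_le_sum fun m hm => ?_
        exact_mod_cast (Finset.mem_Icc.1 hm).2
    _ = (M : ℝ) ^ 2 := by
        rw [Finset.sum_const, Nat.card_Icc, Nat.add_sub_cancel, nsmul_eq_mul, sq]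

theorem exists_M (K η : ℝ) (hη : 0 < η) : ∃ M : ℕ, 1 ≤ M ∧
    (1 + (M : ℝ)) * Real.exp (1 - M) * K ≤ η := by
  have h1 : Filter.Tendsto (fun t : ℝ => t ^ 1 * Real.exp (-t)) Filter.atTop (nhds 0) :=
    Real.tendsto_pow_mul_exp_neg_atTop_nhds_zero 1
  have h2 : Filter.Tendsto (fun t : ℝ => Real.exp (-t)) Filter.atTop (nhds 0) :=
    Real.tendsto_exp_neg_atTop_nhds_zero
  have h3 : Filter.Tendsto (fun M : ℕ => (1 + (M : ℝ)) * Real.exp (1 - M) * K)
      Filter.atTop (nhds 0) := by
    have h4 := ((h1.add h2).const_mul (Real.exp 1 * K)).comp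
      (tendsto_natCast_atTop_atTop (R := ℝ))
    rw [add_zero, mul_zero] at h4
    refine h4.congr fun M => ?_
    simp only [Function.comp_apply]
    rw [pow_one, show (1 : ℝ) - M = 1 + -(M : ℝ) by ring, Real.exp_add]
    ring
  have h5 := (h3.eventually (gt_mem_nhds hη)).and (Filter.eventually_ge_atTop 1)
  obtain ⟨M, hM1, hM2⟩ := h5.exists
  exact ⟨M, hM2, hM1.le⟩

theorem pf_LBF (hPNT : T_PNT) (hBVP : T_BVP) (hMAJ : T_MAJ) (hLLN : T_LLN) (hCRD : T_CRD)
    (hMER : T_MER) : T_LBF := by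
  intro ε δ hε hε2 hδ
  obtain ⟨C1, hC1, hMER⟩ := hMER
  obtain ⟨C2, x2, hC2, hCRD⟩ := hCRD (3 / 4) (by norm_num) (by norm_num)
  -- the parameter `η`
  obtain ⟨η, hη0, hη1, hηδ⟩ : ∃ η : ℝ, 0 < η ∧ η ≤ 1 ∧ 7 * η ≤ δ := by
    refine ⟨min (δ / 7) 1, lt_min (by linarith) one_pos, min_le_right _ _, ?_⟩
    have := min_le_left (δ / 7) 1
    linarith
  -- the parameter `w`
  obtain ⟨w, hw0, hw1, hwe⟩ : ∃ w : ℝ, 0 < w ∧ w < 1 ∧ Real.exp w ≤ 1 + η := by
    have h1 : 0 < Real.log (1 + η) := Real.log_pos (by linarith)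
    refine ⟨min (Real.log (1 + η)) (1 / 2), lt_min h1 (by norm_num),
      (min_le_right _ _).trans_lt (by norm_num), ?_⟩
    calc Real.exp (min (Real.log (1 + η)) (1 / 2)) ≤ Real.exp (Real.log (1 + η)) :=
          Real.exp_le_exp.2 (min_le_left _ _)
      _ = 1 + η := Real.exp_log (by linarith)
  obtain ⟨M, hM1, hMK⟩ := exists_M (2 * C2 * (1 + C2)) η hη0
  have hM0 : (0 : ℝ) < M := by exact_mod_cast hM1
  have hM1' : (1 : ℝ) ≤ M := by exact_mod_cast hM1
  set δ2 : ℝ := η * w / (2 * (M : ℝ) ^ 2) with hδ2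
  have hδ2p : 0 < δ2 := by positivity
  obtain ⟨x3, hx3⟩ := hBVP (ε / 2) δ2 (by linarith) hδ2p
  obtain ⟨x4, hx4⟩ := hPNT η hη0
  -- `2 (1 + M) log x ≤ η x ^ ε` for large `x`
  obtain ⟨x5, hx5⟩ : ∃ x5 : ℝ, ∀ x : ℝ, x5 ≤ x → 2 * (1 + M) * Real.log x ≤ η * x ^ ε := by
    have h1 := (isLittleO_log_rpow_atTop hε).def (show 0 < η / (2 * (1 + M)) by positivity)
    rw [Filter.eventually_atTop] at h1
    obtain ⟨a, ha⟩ := h1
    refine ⟨max a 1, fun x hx => ?_⟩
    have h2 := ha x ((le_max_left _ _).trans hx)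
    have hx1 : 1 ≤ x := (le_max_right _ _).trans hx
    rw [Real.norm_of_nonneg (Real.log_nonneg hx1),
      Real.norm_of_nonneg (Real.rpow_nonneg (by linarith) _)] at h2
    have h3 := mul_le_mul_of_nonneg_left h2 (show (0 : ℝ) ≤ 2 * (1 + M) by positivity)
    refine h3.trans (le_of_eq ?_)
    field_simp
  refine ⟨max (Real.exp (1 + 4 * M + M / ε + 4 * C1 / η)) (max (x2 * Real.exp M)
    (max (x3 * Real.exp M) (max x4 x5))), fun x hx y hy1 hy2 => ?_⟩
  have hxe : Real.exp (1 + 4 * M + M / ε + 4 * C1 / η) ≤ x := (le_max_left _ _).trans hx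
  have hxx2 : x2 * Real.exp M ≤ x := ((le_max_left _ _).trans (le_max_right _ _)).trans hx
  have hxx3 : x3 * Real.exp M ≤ x :=
    (((le_max_left _ _).trans (le_max_right _ _)).trans (le_max_right _ _)).trans hx
  have hxx4 : x4 ≤ x := ((((le_max_left _ _).trans (le_max_right _ _)).trans
    (le_max_right _ _)).trans (le_max_right _ _)).trans hx
  have hxx5 : x5 ≤ x := ((((le_max_right _ _).trans (le_max_right _ _)).trans
    (le_max_right _ _)).trans (le_max_right _ _)).trans hx
  have hx0 : 0 < x := (Real.exp_pos _).trans_le hxe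
  set L : ℝ := Real.log x with hL
  have hLL : 1 + 4 * M + M / ε + 4 * C1 / η ≤ L := by
    rw [hL, Real.le_log_iff_exp_le hx0]
    exact hxe
  have hMε : 0 < M / ε := by positivity
  have hCη : 0 < 4 * C1 / η := by positivity
  have hL1 : 1 ≤ L := by linarith
  have hxL : x = Real.exp L := (Real.exp_log hx0).symm
  have hy0 : 1 ≤ L ^ 6 := one_le_pow₀ hL1
  have hy : 1 ≤ y := hy0.trans hy1
  have hlogy : Real.log y ≤ L := by
    have h1 : Real.log y ≤ (1 / 2 - ε) * L := by
      have := Real.log_le_log (by linarith) hy2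
      rwa [Real.log_rpow hx0] at this
    have h2 : (1 / 2 - ε) * L ≤ 1 * L := mul_le_mul_of_nonneg_right (by linarith) (by linarith)
    linarith
  have hlogy0 : 0 ≤ Real.log y := Real.log_nonneg hy
  have hxM : x * Real.exp (1 - M) ≤ x := by
    refine mul_le_of_le_one_right hx0.le ?_
    exact Real.exp_le_one_iff.2 (by linarith)
  have hx'1 : 1 ≤ x * Real.exp (1 - M) := by
    rw [hxL, ← Real.exp_add]
    exact Real.one_le_exp (by linarith)
  have hsum := LBF_sum hMAJ hLLN w x L (L ^ 6) y M hw0 hw1 hM1 hx0 hx'1 hxM hL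
  -- (a)
  have hlogq : Real.log (y / L ^ 6) ≤ Real.log y := by
    refine Real.log_le_log (by positivity) ?_
    exact div_le_self (by linarith) hy0
  have ha : Chebyshev.psi (x * Real.exp w) * SL (L ^ 6) y gg ≤
      x * Real.log y + 3 * η * (x * L) + η * (x * L) := by
    have h1 : Chebyshev.psi (x * Real.exp w) ≤ (1 + 3 * η) * x := by
      have h2 := hx4 (x * Real.exp w) (hxx4.trans (le_mul_of_one_le_right hx0.le
        (Real.one_le_exp hw0.le)))
      have h3 := (abs_le.1 h2).2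
      have h4 : x * Real.exp w ≤ x * (1 + η) := mul_le_mul_of_nonneg_left hwe hx0.le
      have h5 : (1 + η) * (x * Real.exp w) ≤ (1 + η) * (x * (1 + η)) :=
        mul_le_mul_of_nonneg_left h4 (by linarith)
      have h6 : η * η * x ≤ 1 * η * x := by
        refine mul_le_mul_of_nonneg_right ?_ hx0.le
        exact mul_le_mul_of_nonneg_right hη1 hη0.le
      linarith
    have h2 : SL (L ^ 6) y gg ≤ Real.log y + C1 := (hMER _ _ hy0 hy1).trans (by linarith)
    have h3 : 0 ≤ Chebyshev.psi (x * Real.exp w) := Chebyshev.psi_nonneg _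
    have h4 : Chebyshev.psi (x * Real.exp w) * SL (L ^ 6) y gg ≤
        (1 + 3 * η) * x * (Real.log y + C1) :=
      (mul_le_mul_of_nonneg_left h2 h3).trans (mul_le_mul_of_nonneg_right h1 (by linarith))
    have h5 : (1 + 3 * η) * C1 ≤ η * L := by
      have h6 : 4 * C1 / η ≤ L := by linarith
      rw [div_le_iff₀ hη0] at h6
      have h7 : η * C1 ≤ 1 * C1 := mul_le_mul_of_nonneg_right hη1 hC1.le
      linarith
    have h6 : (1 + 3 * η) * x * (Real.log y + C1) =
        x * Real.log y + 3 * η * (x * Real.log y) + x * ((1 + 3 * η) * C1) := by ring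
    have h7 : 3 * η * (x * Real.log y) ≤ 3 * η * (x * L) :=
      mul_le_mul_of_nonneg_left (mul_le_mul_of_nonneg_left hlogy hx0.le) (by linarith)
    have h8 : x * ((1 + 3 * η) * C1) ≤ x * (η * L) := mul_le_mul_of_nonneg_left h5 hx0.le
    linarith
  -- (b)
  have hE : ∀ X : ℝ, x * Real.exp (-M) ≤ X → X ≤ x →
      SL (L ^ 6) y (fun l => |WD X l - WX X * gg l|) ≤ δ2 * x := by
    intro X hX1 hX2
    have hX0 : 0 < X := (by positivity : 0 < x * Real.exp (-M)).trans_le hX1
    have h1 : x3 ≤ X := by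
      refine le_trans ?_ hX1
      rw [Real.exp_neg, ← div_eq_mul_inv, le_div_iff₀ (Real.exp_pos _)]
      exact hxx3
    have h2 := hx3 X h1
    have hX1' : 1 ≤ X := by
      refine le_trans ?_ hX1
      rw [hxL, ← Real.exp_add]
      exact Real.one_le_exp (by linarith)
    have h3 : Real.log X ^ 6 ≤ L ^ 6 :=
      pow_le_pow_left₀ (Real.log_nonneg hX1') (Real.log_le_log hX0 hX2) 6
    have h4 : y ≤ X ^ (1 / 2 - ε / 2) := by
      refine hy2.trans ?_
      calc x ^ (1 / 2 - ε) = Real.exp (L * (1 / 2 - ε)) := by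
            rw [Real.rpow_def_of_pos hx0]
        _ ≤ Real.exp ((L - M) * (1 / 2 - ε / 2)) := by
            refine Real.exp_le_exp.2 ?_
            have h5 : M / ε ≤ L := by linarith
            rw [div_le_iff₀ hε] at h5
            have h6 : 0 < (M : ℝ) * ε := mul_pos hM0 hε
            have h7 : (L - M) * (1 / 2 - ε / 2) - L * (1 / 2 - ε) =
                (L * ε - M) / 2 + M * ε / 2 := by ring
            linarith
        _ = (x * Real.exp (-M)) ^ (1 / 2 - ε / 2) := by
            rw [Real.rpow_def_of_pos (by positivity), Real.log_mul hx0.ne' (Real.exp_pos _).ne',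
              Real.log_exp, ← hL]
            ring_nf
        _ ≤ X ^ (1 / 2 - ε / 2) := Real.rpow_le_rpow (by positivity) hX1 (by linarith)
    calc SL (L ^ 6) y (fun l => |WD X l - WX X * gg l|)
        ≤ SL (Real.log X ^ 6) (X ^ (1 / 2 - ε / 2)) (fun l => |WD X l - WX X * gg l|) :=
          SL_mono h3 h4 (fun l => abs_nonneg _)
      _ ≤ δ2 * X := h2
      _ ≤ δ2 * x := mul_le_mul_of_nonneg_left hX2 hδ2p.le
  have hb : (∑ m ∈ Icc 1 M, (m : ℝ) *
        (SL (L ^ 6) y (fun l => |WD (x * Real.exp (w - m)) l - WX (x * Real.exp (w - m)) * gg l|) +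
        SL (L ^ 6) y (fun l => |WD (x * Real.exp (-m)) l - WX (x * Real.exp (-m)) * gg l|))) / w ≤
      η * (x * L) := by
    have h1 : ∑ m ∈ Icc 1 M, (m : ℝ) *
        (SL (L ^ 6) y (fun l => |WD (x * Real.exp (w - m)) l - WX (x * Real.exp (w - m)) * gg l|) +
        SL (L ^ 6) y (fun l => |WD (x * Real.exp (-m)) l - WX (x * Real.exp (-m)) * gg l|)) ≤
        ∑ m ∈ Icc 1 M, (m : ℝ) * (2 * (δ2 * x)) := by
      refine Finset.sum_le_sum fun m hm => ?_
      have hm1 : (1 : ℝ) ≤ m := by exact_mod_cast (Finset.mem_Icc.1 hm).1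
      have hmM : (m : ℝ) ≤ M := by exact_mod_cast (Finset.mem_Icc.1 hm).2
      have h2 := hE (x * Real.exp (w - m))
        (mul_le_mul_of_nonneg_left (Real.exp_le_exp.2 (by linarith)) hx0.le)
        (by
          refine mul_le_of_le_one_right hx0.le ?_
          exact Real.exp_le_one_iff.2 (by linarith))
      have h3 := hE (x * Real.exp (-m))
        (mul_le_mul_of_nonneg_left (Real.exp_le_exp.2 (by linarith)) hx0.le)
        (by
          refine mul_le_of_le_one_right hx0.le ?_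
          exact Real.exp_le_one_iff.2 (by linarith))
      exact mul_le_mul_of_nonneg_left (by linarith) (by linarith)
    rw [← Finset.sum_mul] at h1
    have h2 := sum_Icc_le M
    have h3 : (∑ m ∈ Icc 1 M, (m : ℝ)) * (2 * (δ2 * x)) ≤ (M : ℝ) ^ 2 * (2 * (δ2 * x)) :=
      mul_le_mul_of_nonneg_right h2 (by positivity)
    have h4 : (M : ℝ) ^ 2 * (2 * (δ2 * x)) = η * w * x := by
      rw [hδ2]
      field_simp
    rw [div_le_iff₀ hw0]
    have h5 : η * w * x ≤ η * (x * L) * w := by
      have h6 : x ≤ x * L := le_mul_of_one_le_right hx0.le hL1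
      have h7 := mul_le_mul_of_nonneg_left h6 (mul_nonneg hη0.le hw0.le)
      linarith
    linarith
  -- (c)
  have hc : (1 + (M : ℝ)) * (L * SL (L ^ 6) y (NN (x * Real.exp (1 - M))) + 2 * √x * L *
        ∑ l ∈ (PR y).filter (fun l : ℕ => L ^ 6 < (l : ℝ)), Real.log l) ≤
      η * (x * L) + η * (x * L) := by
    set x' : ℝ := x * Real.exp (1 - M) with hx'
    have hx'0 : 0 < x' := by positivity
    have hlx' : Real.log x' = L + (1 - M) := by
      rw [hx', Real.log_mul hx0.ne' (Real.exp_pos _).ne', Real.log_exp]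
    have h1 : x2 ≤ x' := by
      have h2 : x2 ≤ x * Real.exp (-M) := by
        rw [Real.exp_neg, ← div_eq_mul_inv, le_div_iff₀ (Real.exp_pos _)]
        exact hxx2
      refine h2.trans ?_
      exact mul_le_mul_of_nonneg_left (Real.exp_le_exp.2 (by linarith)) hx0.le
    have h2 : y ≤ x' ^ (3 / 4 : ℝ) := by
      refine hy2.trans ?_
      rw [Real.rpow_def_of_pos hx0, Real.rpow_def_of_pos hx'0, hlx', ← hL]
      refine Real.exp_le_exp.2 ?_
      have h8 : 0 < ε * L := mul_pos hε (by linarith)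
      linarith
    have h3 := hCRD x' h1 (L ^ 6) y hy0 hy1 h2
    have hl2 : L / 2 ≤ Real.log x' := by
      rw [hlx']
      linarith
    have hl0 : 0 < Real.log x' := by linarith
    have h4 : SL (L ^ 6) y (NN x') ≤ 2 * C2 * (1 + C2) * x' := by
      refine h3.trans ?_
      have h5 : Real.log (y / L ^ 6) + C2 ≤ L * (1 + C2) := by
        have h9 := mul_le_mul_of_nonneg_right hL1 hC2.le
        linarith
      have h6 : C2 * x' / Real.log x' ≤ C2 * x' / (L / 2) :=
        div_le_div_of_nonneg_left (by positivity) (by linarith) hl2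
      calc C2 * x' / Real.log x' * (Real.log (y / L ^ 6) + C2)
          ≤ C2 * x' / Real.log x' * (L * (1 + C2)) := mul_le_mul_of_nonneg_left h5 (by positivity)
        _ ≤ C2 * x' / (L / 2) * (L * (1 + C2)) := mul_le_mul_of_nonneg_right h6 (by positivity)
        _ = 2 * C2 * (1 + C2) * x' := by
            have hLne : L ≠ 0 := by linarith
            field_simp
    have h5 : (1 + (M : ℝ)) * (L * SL (L ^ 6) y (NN x')) ≤ η * (x * L) := by
      calc (1 + (M : ℝ)) * (L * SL (L ^ 6) y (NN x'))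
          ≤ (1 + M) * (L * (2 * C2 * (1 + C2) * x')) := by
            refine mul_le_mul_of_nonneg_left ?_ (by positivity)
            exact mul_le_mul_of_nonneg_left h4 (by linarith)
        _ = ((1 + (M : ℝ)) * Real.exp (1 - M) * (2 * C2 * (1 + C2))) * (x * L) := by
            rw [hx']
            ring
        _ ≤ η * (x * L) := mul_le_mul_of_nonneg_right hMK (by positivity)
    have h6 := sum_log_le (y0 := L ^ 6) (by linarith : (0 : ℝ) ≤ y) (by linarith : 0 ≤ L) hlogy
    have h7 : (1 + (M : ℝ)) * (2 * √x * L *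
        ∑ l ∈ (PR y).filter (fun l : ℕ => L ^ 6 < (l : ℝ)), Real.log l) ≤ η * (x * L) := by
      have h8 : 0 ≤ √x := Real.sqrt_nonneg x
      calc (1 + (M : ℝ)) * (2 * √x * L *
          ∑ l ∈ (PR y).filter (fun l : ℕ => L ^ 6 < (l : ℝ)), Real.log l)
          ≤ (1 + M) * (2 * √x * L * (x ^ (1 / 2 - ε) * L)) := by
            refine mul_le_mul_of_nonneg_left ?_ (by positivity)
            refine mul_le_mul_of_nonneg_left ?_ (by positivity)
            exact h6.trans (mul_le_mul_of_nonneg_right hy2 (by linarith))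
        _ = (2 * (1 + M) * L) * (x ^ (1 - ε) * L) := by
            rw [Real.sqrt_eq_rpow, show (1 : ℝ) - ε = 1 / 2 + (1 / 2 - ε) by ring,
              Real.rpow_add hx0]
            ring
        _ ≤ (η * x ^ ε) * (x ^ (1 - ε) * L) := by
            refine mul_le_mul_of_nonneg_right (hx5 x hxx5) (by positivity)
        _ = η * (x * L) := by
            have : x ^ ε * x ^ (1 - ε) = x := by
              rw [← Real.rpow_add hx0]
              norm_num
            calc (η * x ^ ε) * (x ^ (1 - ε) * L) = η * ((x ^ ε * x ^ (1 - ε)) * L) := by ring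
              _ = _ := by rw [this]
    rw [mul_add]
    linarith
  have hfin : 7 * (η * (x * L)) ≤ δ * (x * L) := by
    have h9 : 0 ≤ x * L := by positivity
    have h10 := mul_le_mul_of_nonneg_right hηδ h9
    linarith
  have e1 : δ * x * L = δ * (x * L) := by ring
  rw [e1]
  have hηxL : 0 ≤ η * (x * L) := by positivity
  linarith

end Pool.Agent.H40.LF
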